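import Pool.Agent.P8H27.RF.Bounded

/-!
# An explicit uniform bound for the degrees of the generators of the rings of Tate classes on abelian
varieties over finite fields

Let `q = p ^ m`, and let `L` be a totally real number field, Galois over `ℚ`; let `t = numPrimes p L`
be the number of its prime ideals above `p`, and let `N` be a positive integer. We consider **all**
abelian varieties `X` over the field with `q` elements such that (up to supersingular factors) the
eigenvalues of Frobenius plus Verschiebung belong to `L` (`TracesIn`) and the slopes are multiples of
`1 / N` (`SlopesIn`). The eigenvalues of Frobenius of `X` are supersingular or roots of the polynomials
`T ^ 2 - φ(b) T + q`, where `b` is an integer of `L` and `φ` an embedding of `L` in `Ω` (an algebraic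
closure of `ℚ_ℓ`). Each abelian variety over the field with `q` elements satisfies these assumptions
for some `L` and `N`. For given `L` and `N` the abelian varieties with this property over all finite
fields of characteristic `p` form a class that is closed under products, isogenies and abelian
subvarieties; it contains in general infinitely many simple abelian varieties over the algebraic
closure of the prime field, with infinitely many CM fields, and its members have no bound on the
dimension.

**Theorem.** For all `X` of this class the ring of Tate classes on `X`, over all finite extensions of the
ground field and in all degrees, is generated by the Tate classes of (even) degree at most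
`2 (2 t N + 1) ^ t`. This bound depends only on `t` and `N`: not on the dimension of `X`, not on `p`,
`q` and not on the degree of `L`.

So the Tate conjecture for all of these infinitely many abelian varieties, in all codimensions and
over all finite extensions, follows from the conjecture in the finitely many codimensions
`r ≤ (2 t N + 1) ^ t`. In particular (`N = 1`, the ordinary case) the Tate conjecture for all ordinary
abelian varieties with traces in `L` is reduced to the codimensions `r ≤ (2 t + 1) ^ t`.

The proof: a Tate class is a combination of monomials in an eigenbasis, which correspond to families
of roots `α` with `∏ α = ζ q ^ r`, `ζ` a root of unity. An element of the Galois group over `L` maps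
each `α` to `α` or `q / α`, according to a quadratic character of this group. Let it act on the
relation between the valuations of the `α` and use the linear independence of characters: the
relation decomposes into relations between the `α` that generate the same quadratic extension `M` of
`L`. The valuation of `α` at a place of `M` is determined up to a sign common to all `α` in `M`
by the place of `L` below, by the action of Galois. So the relation is a relation with sum zero
between vectors of length `t` whose entries are multiples of `1 / N` and at most `1` in absolute
value. By the lemma of Steinitz the vectors can be ordered such that the partial sums have entries
at most `t` in absolute value (proof of Grinberg and Sevastyanov), so that two of the first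
`(2 t N + 1) ^ t + 1` partial sums would be equal and a shorter relation would split off. By
Kronecker's theorem such a shorter relation (or its square) defines a Tate class.
-/

namespace Pool.Agent.Results.MP_0fca13_ag.BoundedGeneration

open NumberField Pool.Agent.W527.TateRing Pool.Agent.P8H27.RF

/-- **The Tate classes on all abelian varieties over finite fields with traces in `L` and slopes in
`1 / N` times the integers are generated in degrees at most `2 (2 t N + 1) ^ t`**, where `t` is the
number of primes of `L` above `p`. -/
theorem result {p m : ℕ} [Fact p.Prime] (hm : 0 < m) {L : Type} [Field L] [NumberField L]
    [IsTotallyReal L] [IsGalois ℚ L] {N : ℕ} (hN : 0 < N) (S : Set (𝓞 L))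
    (hS : WeilBound (p ^ m) S) (hE : SlopesIn p m {x : ℝ | ∃ n : ℤ, (N : ℝ) * x = n} S)
    {Ω : Type} [Field Ω] [IsAlgClosed Ω] [CharZero Ω] (X : FrobSpace Ω)
    (hX : TracesIn (p ^ m) S X) (κ : Type) [Finite κ] (hκ : Even (Nat.card κ)) (f : Coh X κ) :
    IsTate (p ^ m) f ↔
      GenByDegree (p ^ m) (2 * (2 * numPrimes p L * N + 1) ^ numPrimes p L) X κ f :=
  gen_bounded hm hN hS hE hX hκ f

end Pool.Agent.Results.MP_0fca13_ag.BoundedGeneration
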