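import Pool.Agent.P8H27.RF.Times

/-!
# Tate classes on the products of ordinary abelian varieties whose traces of Frobenius lie in a totally
real Galois field with arbitrary varieties: the splitting criterion

Let `q = p ^ m`, and let `L` be a totally real number field, Galois over `ℚ`. We consider **all**
abelian varieties `X` over the field with `q` elements that are ordinary up to supersingular factors
and such that the eigenvalues of Frobenius plus Verschiebung belong to `L` (`TracesIn`, `PrimeTo`): the
eigenvalues of Frobenius are supersingular or roots of polynomials `T ^ 2 - φ(b) T + q`, where `b ∈ S`
is an integer of `L`, prime to `p`, and `φ` an embedding of `L` in `Ω` (an algebraic closure of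
`ℚ_ℓ`). The CM fields of the simple factors are arbitrary quadratic extensions of the subfields of `L`,
in general there are infinitely many.

Let `V` be an **arbitrary** variety over this field, for example smooth and projective, and let
`M = H^w(V)` with the Frobenius `φ` (which is not assumed to be semisimple). An eigenvalue `β` of `φ` is
**separated** (`Separated`) if one of the following conditions holds, where `s` and `s'` run through the
slopes of the conjugates of `β`:

1. all slopes are equal to `w / 2` (that is, for a Weil number `β` of weight `w`: a power of `β ^ 2` is a
   power of `q ^ w`);
2. the difference of two slopes is not an integer, or two times a slope is not an integer;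
3. `L` has at most two primes above `p`, and `|2 s - w|` is, for some `s`, greater than the mean value of
   the numbers `(2 s' - w) ^ 2` for the slopes `s'` of all conjugates;
4. `β` is independent of `X`: for some `n > 0` no discriminant `φ(b) ^ 2 - 4 q`, `b ∈ S`, is a square in the
   field generated by `L` and `β ^ n`.

**Theorem.** Suppose that all eigenvalues of Frobenius on `H^w(V)` are separated. Then all (generalized)
Tate classes in `H^k(X) ⊗ H^w(V)`, for all `k` and over all finite extensions of the ground field, are
linear combinations of products `g ⊗ x` of a Tate class `g ∈ H^k(X)` and a (generalized) Tate class
`x ∈ H^w(V)`.

So for these `V` **Tate's conjecture for `X × V` in all degrees (with semisimplicity) follows from the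
conjecture for `X` and for `V`** (if `X` has supersingular factors: for `V` without supersingular
eigenvalues of Frobenius in odd degrees), for all `X` as above at once; and if `L` has at most two primes above
`p` then the conjecture is true for `X`, the Tate classes on `X` being generated by divisor classes
(`MP_0fca13_ag.TracesInRealField` and Tate's theorem), so that it is a consequence of the conjecture for
`V` alone.

**Example: K3 surfaces.** Let `V` be a K3 surface. If `V` is supersingular then all eigenvalues on `H^2`
satisfy condition 1. If the height `h` of `V` is finite and greater than one then the slopes of each
eigenvalue which is not `q` up to a root of unity are `1 - 1 / h`, `1` and `1 + 1 / h`, or the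
first and the last one only, and condition 2 is satisfied, except if `h = 2` and only the slopes `1 / 2`
and `3 / 2` occur. If `V` is ordinary then the transcendental part is an irreducible representation of
dimension `d = 22 - ρ`, with the slopes `0`, `2` (once each) and `1`; the mean value in condition 3 is
`8 / d`, the maximum is `2`, so condition 3 is satisfied if `ρ < 18`. As the Tate conjecture is known for
K3 surfaces, **the Tate conjecture holds, in all codimensions, for the products `X × V` of the abelian
varieties `X` as above (at most two primes of `L` above `p`) with all K3 surfaces `V` of geometric Picard
number less than `18`.** The same is true for other varieties with known Tate conjecture whose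
Newton polygons are of K3 type. The bound for the Picard number is sharp: for a Kummer surface `V` of a
product of two elliptic curves the classes on `X × V` do not split in general.

The proof: a Tate class gives relations `β ∏ α = ζ q ^ r` between an eigenvalue `β` of `V` and eigenvalues
`α` of `X`, `ζ` a root of unity. The valuations at the places above `p` of the conjugates of the `α` are
functions with values `1` and `-1` on the Galois group (after normalization). For 4. apply the
automorphisms which fix `L` and `β ^ n`: each `α` is mapped to `q / α` by half of them, and the mean
value of the relation shows that all slopes of `β` are `w / 2`. For 3. one shows that these functions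
are orthogonal to each other (or equal up to sign): this follows from the action of the Galois group over
`L` for numbers `α` which generate different quadratic extensions of `L`, and from the fact that the
two classes of elements of the Galois group given by the two primes of `L` have the same size if
they generate the same extension. So the function of `β` is a sum of orthonormal functions with
integral coefficients, and its maximum is not greater than the mean value of the squares.

Related results: for `X` a product of elliptic curves and abelian surfaces and arbitrary `V` the
starting file `MP_557161_ag.SeparatedTimesSurfaces` proves an analogous criterion (with a factor two in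
condition 3); here the dimensions of the simple factors of `X` are not bounded.
-/

namespace Pool.Agent.Results.MP_0fca13_ag.TimesArbitraryVarieties

open NumberField Module Pool.Agent.W527.TateRing Pool.Agent.P8H27.RF

/-- **The Tate classes on the products of ordinary abelian varieties with traces in `L` and arbitrary
varieties with separated eigenvalues are products of Tate classes.** -/
theorem result {p m : ℕ} [Fact p.Prime] (hm : 0 < m) {L : Type} [Field L] [NumberField L]
    [IsTotallyReal L] [IsGalois ℚ L] (S : Set (𝓞 L)) (hS : WeilBound (p ^ m) S) (hP : PrimeTo p S)
    {Ω : Type} [Field Ω] [IsAlgClosed Ω] [CharZero Ω] (X : FrobSpace Ω)
    (hX : TracesIn (p ^ m) S X) (M : Type) [AddCommGroup M] [Module Ω M] [FiniteDimensional Ω M]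
    (φ : M →ₗ[Ω] M) (w : ℕ) (hφ : ∀ β, End.HasEigenvalue φ β → Separated p m S w β)
    (κ : Type) [Finite κ] (r : ℕ) (f : X.V [⋀^κ]→ₗ[Ω] M) (hf : IsTateOn (p ^ m) w r X φ f) :
    f ∈ Submodule.span Ω {g | IsProductClass (p ^ m) w r X φ g} :=
  kunneth_separated hm hS hP hX hφ hf

end Pool.Agent.Results.MP_0fca13_ag.TimesArbitraryVarieties
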