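import Pool.Agent.P8H27.RF.Kl

/-!
# The Tate conjecture for all products of abelian varieties over finite fields whose traces lie in a
# totally real Galois field with at most two primes above `p`

Let `q = p ^ m`, and let `L` be a totally real number field, Galois over `ℚ`, with at most two prime
ideals above `p`: for instance `ℚ`, any real quadratic field, a field in which `p` is inert or
totally ramified, the maximal real subfield of `ℚ(ζ_N)` if `p` and `-1` generate a subgroup of index
at most two of the group of units modulo `N` (and `N` is prime to `p` or a power of `p`), or the
fields `ℚ(ζ_{p ^ n})⁺`.

We consider **all** abelian varieties `X` over the field with `q` elements such that the eigenvalues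
of Frobenius plus Verschiebung belong to `L`, up to supersingular factors (`TracesIn`): the
eigenvalues of Frobenius are supersingular or roots of polynomials `T ^ 2 - φ(b) T + q`, where `b` is
an integer of `L` and `φ` an embedding of `L` in `Ω` (an algebraic closure of `ℚ_ℓ`). In other words,
`X` is isogenous to a product of a supersingular abelian variety and simple abelian varieties `A i`
such that the maximal real subfield of the center of the endomorphism algebra of `A i` has an
embedding in `L`. This class is closed under products; the CM fields of the `A i` are arbitrary (in
general there are infinitely many).

**Theorem.** If `X` is ordinary up to supersingular factors (`PrimeTo`), or more generally if roots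
which generate the same quadratic extension of `L` have the same slopes at each place, up to duality
(`EqualSlopes`), then the ring of the Tate classes on `X`, over all finite extensions of the finite
field and in all degrees, is generated by the Tate classes of degree two. By Tate's theorem these
are combinations of classes of divisors, so the Tate conjecture holds for `X`, for all its powers and
for the products of all such varieties, in all codimensions.

For `L = ℚ` this is the theorem of Spiess on products of elliptic curves. For a real quadratic field
`L` one gets all products of elliptic curves and ordinary abelian surfaces with real multiplication
by `L`.

**Example** (`L = ℚ(ζ_p)⁺`, one prime above `p`). For a finite field `F` of odd characteristic `p` with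
`q` elements, consider the Kloosterman curves `y ^ p - y = x + a / x`, `a ∈ F` not zero. The
eigenvalues of Frobenius on their Jacobians are the roots of `T ^ 2 + K T + q`, where `K` runs through
the Kloosterman sums `K = ∑ ψ(x + a / x)`. These are real and congruent to `-1` modulo the prime
above `p`, and are at most `2 √q` by Weil's theorem (proved in Lean by another contributor). So the
Tate classes on all products of powers of Kloosterman curves, supersingular curves and, for instance,
elliptic curves are generated by those of degree two (second part of the theorem, for the abelian
varieties with the Frobenius eigenvalues of products of Kloosterman curves and supersingular curves).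

The proof: a Tate class is a combination of monomials in an eigenbasis, which correspond to families
of roots `α` with `∏ α = ζ q ^ r`, `ζ` a root of unity. An element of the Galois group over `L` maps
each `α` to `α` or `q / α`, according to a quadratic character of this group. Let it act on the
relation between the valuations of the `α` and use the linear independence of characters: the
relation decomposes into relations between the `α` that generate the same quadratic extension `M` of
`L`. The valuation of `α` at a place of `M` is determined up to a sign common to all `α` in `M`
by the place of `L` below, by the action of Galois. So the relation is a relation with sum zero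
between vectors of signs of length at most two, and such a relation contains two opposite vectors.
By Kronecker's theorem the product of the corresponding two `α` is `q` up to a root of unity, so that
they define a Tate class of degree two.
-/

namespace Pool.Agent.Results.MP_0fca13_ag.TracesInRealField

open NumberField Pool.Agent.W527.TateRing Pool.Agent.P8H27.RF

/-- **The Tate conjecture for abelian varieties with traces in a totally real Galois field with at
most two primes above `p`**, and the example of Kloosterman sums. -/
theorem result :
    (∀ {p m : ℕ} [Fact p.Prime] {L : Type} [Field L] [NumberField L] [IsTotallyReal L]
      [IsGalois ℚ L], 0 < m → numPrimes p L ≤ 2 →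
      ∀ (S : Set (𝓞 L)), WeilBound (p ^ m) S → (PrimeTo p S ∨ EqualSlopes p m S) →
      ∀ {Ω : Type} [Field Ω] [IsAlgClosed Ω] [CharZero Ω] (X : FrobSpace Ω),
      TracesIn (p ^ m) S X → ∀ (κ : Type) [Finite κ] (f : Coh X κ), Even (Nat.card κ) →
      (IsTate (p ^ m) f ↔ GenByDegree (p ^ m) 2 X κ f)) ∧
    ∀ (F : Type) [Field F] [Fintype F], ringChar F ≠ 2 →
      ∀ {Ω : Type} [Field Ω] [IsAlgClosed Ω] [CharZero Ω] (X : FrobSpace Ω),
      KloostermanType F X → ∀ (κ : Type) [Finite κ] (f : Coh X κ), Even (Nat.card κ) →
      (IsTate (Fintype.card F) f ↔ GenByDegree (Fintype.card F) 2 X κ f) :=
  ⟨fun hm hL _ hS hE _ _ _ _ _ hX _ _ f hκ =>
    main_equal hm hS (hE.elim equalSlopes_of_primeTo id) hX bound_two le_rfl hL hκ f,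
    fun _ _ _ hF _ _ _ _ X hX _ _ f hκ => kloosterman_tate hF X hX hκ f⟩

end Pool.Agent.Results.MP_0fca13_ag.TracesInRealField
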