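import Pool.Agent.P8H27.UC.Mod
import Pool.Agent.P8H27.UC.Crit

/-!
# Tate classes on the products of varieties over finite fields with uncorrelated slopes

Let `q = p ^ m`. The Frobenius eigenvalues on the cohomology of smooth projective varieties over the
field with `q` elements are Weil numbers `α` of some weight `u` (`IsWeilNumber`), and their slopes (the
`q`-valuations of the `p`-adic conjugates) have the mean value `u / 2`. For two Weil numbers `α`, `β` of the
weights `u`, `w` the **correlation** of the slopes is the sum

  `∑ (2 v(τ α) - u) (2 v(τ β) - w)`

over all embeddings `τ` of the field `ℚ(α, β)` in an algebraic closure of `ℚ_p` (`correlation`). We say that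
`α` and `β` are uncorrelated if it is zero (`Uncorrelated`). This is a condition on pairs only, and it is
often satisfied:

* if the fields `ℚ(α)` and `ℚ(β)` are linearly disjoint over `ℚ` (the sum is then a product of two
  sums which are zero);
* if some automorphism of `ℚ(α, β)` fixes a power of `β` and maps a power of `α` to its complex conjugate
  (`Pool.Agent.P8H27.UC.uncorrelated_of_conj`); for instance if a power of `α` does not belong to the
  field generated by its real part and by `β`, or if the normal closures of the fields meet in a totally
  real field;
* if all slopes of `β` are equal to `w / 2` (`uncorrelated_of_slopes`; then a power of `β` is a power of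
  `q`);
* but it may also be a condition on the slopes: for instance let `β` be the number of an ordinary K3
  surface (`β` has one slope `0`, one slope `2`, the others are `1`) and let `𝔭` be the place of `ℚ(β)` where
  the slope is zero: then `α` and `β` are uncorrelated if and only if the mean value of the slopes of `α`
  at the places of `ℚ(α, β)` above `𝔭` is `u / 2`.

Let `R` and `R'` be two sets of Weil numbers such that each number of `R` is uncorrelated with each number
of `R'`. Let `X` and `Y` be varieties such that all eigenvalues of Frobenius on the cohomology `H = H^u(X)`
are products of numbers in `R`, and those on `M = H^w(Y)` products of numbers in `R'` (with the right weights,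
`IsProductOf`). For instance

* `X` is an **arbitrary** abelian variety and `R` is the set of the eigenvalues on `H^1(X)`; nothing is
  assumed on the Newton polygon, the simple factors and the exotic Tate classes of `X`;
* `X` is a product of arbitrary curves, abelian varieties, K3 surfaces, ... and `R` consists of the
  eigenvalues on the `H^i` of the factors; in particular the factors of `X` may be correlated among each
  other;
* `Y` is an **arbitrary** variety, `R'` the set of all eigenvalues on its cohomology, which need not be
  semisimple.

**Theorem.** All generalized Tate classes, over all finite extensions of the ground field, in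
`H ⊗ M = H^u(X) ⊗ H^w(Y)` are linear combinations of products `h ⊗ y` of generalized Tate classes `h ∈ H` and
`y ∈ M` (`IsGenTate`; for odd weights this means that the Frobenius of an extension with `Q ^ 2` elements
acts as `Q ^ u`, up to a unipotent factor, as on the cohomology of supersingular elliptic curves).

Hence, if one of `X` and `Y` has no supersingular eigenvalues in odd degrees (or if `H^u ⊗ H^w`, `u` and `w`
odd, does not matter as for `H^2` of surfaces), **the Tate conjecture for `X × Y` in all codimensions, with
semisimplicity, follows from the Tate conjectures for `X` and for `Y`**, without any hypothesis about the
relations among the eigenvalues of `X` or among those of `Y`. By induction the same is true for products of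
any number of varieties which are pairwise uncorrelated. For example the Tate conjecture holds, in all
codimensions, for the product of an abelian variety `X` for which it is known (dimension at most three,
products of elliptic curves, the abelian varieties of `MP_0fca13_ag.TracesInRealField`, ...) with any
K3 surface, or any product of such varieties for which it is known, such that the Frobenius fields of the
factors are linearly disjoint.

What was known: criteria of this kind if `X` is an abelian variety without exotic classes, and the Galois
groups or the slopes are independent (Spiess, Zarhin, Kowalski, starting files). Here the classes on `X`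
and on `Y` are arbitrary, and the independence is replaced by an orthogonality relation for pairs.

The proof. Let `G` be the Galois group of a large number field, with a fixed `p`-adic place. A Weil number `α`
of weight `u` defines the function `f_α(g) = 2 v(g α) - u` on `G`; a product of Weil numbers is `q ^ (u / 2)`, up
to a root of unity, if and only if the sum of the functions is zero. The sum of the products
`f_α(g) f_β(g)` over `G` is a multiple of the correlation. If an eigenvalue of `X × Y` is a power of `q` up to a
root of unity, then the sum `F` of the functions of the eigenvalues `α` in `R` is minus the sum of the
functions of the `β` in `R'`; so `∑ F(g) ^ 2` is minus a sum of correlations, hence zero, and `F = 0`.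
-/

namespace Pool.Agent.Results.MP_0fca13_ag.UncorrelatedSlopes

open Module TensorProduct Pool.Agent.P8H27.UC

/-- **The generalized Tate classes on the products of varieties with uncorrelated slopes are products
of generalized Tate classes.** -/
theorem result {p m : ℕ} [Fact p.Prime] (hm : 0 < m) {Ω : Type} [Field Ω] [CharZero Ω]
    [IsAlgClosed Ω] (R R' : Set (Ω × ℤ)) (hR : ∀ a ∈ R, IsWeilNumber p m a.2 a.1)
    (hR' : ∀ b ∈ R', IsWeilNumber p m b.2 b.1)
    (hunc : ∀ a ∈ R, ∀ b ∈ R', Uncorrelated p m a.2 b.2 a.1 b.1)
    (H M : Type) [AddCommGroup H] [Module Ω H] [FiniteDimensional Ω H] [AddCommGroup M]
    [Module Ω M] [FiniteDimensional Ω M] (F : End Ω H) (φ : End Ω M) (u w : ℤ)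
    (hF : ∀ μ, End.HasEigenvalue F μ → IsProductOf R u μ)
    (hφ : ∀ μ, End.HasEigenvalue φ μ → IsProductOf R' w μ) (x : H ⊗[Ω] M)
    (hx : IsGenTate (p ^ m) (u + w) (TensorProduct.map F φ : End Ω (H ⊗[Ω] M)) x) :
    x ∈ Submodule.span Ω {z | ∃ (h : H) (y : M), IsGenTate (p ^ m) u F h ∧
      IsGenTate (p ^ m) w φ y ∧ z = h ⊗ₜ[Ω] y} :=
  tate_tensor hm R R' hR hR' hunc F φ u w hF hφ hx

end Pool.Agent.Results.MP_0fca13_ag.UncorrelatedSlopes
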